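import Pool.Agent.Helper416.CFib.Main
import Pool.Agent.Helper416.ForceCH

set_option autoImplicit false

namespace Pool.Agent.Results.MP_d1327c_gt.CompactCounterexample

open Pool.Agent.Helper416.ForceCH (OmegaOnePreserved CHHolds)

universe u

/-- (1) Some notion of forcing forces the continuum hypothesis over any ground model, without
collapsing `ω₁`. (2) The continuum hypothesis implies that there is a compact Hausdorff space `X`
such that `C_p(X)` is Lindelöf, while `C_p(Y)` is not Lindelöf for any compact Hausdorff
zero-dimensional space `Y` which has a continuous map onto `X`. -/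
theorem result :
    (∃ (P : Type) (_ : Preorder P), Nonempty P ∧
      ∀ p : P, p ∈ OmegaOnePreserved P ∧ p ∈ CHHolds P) ∧
    (Cardinal.aleph 1 = Cardinal.continuum.{0} →
      ∃ (X : Type) (_ : TopologicalSpace X), CompactSpace X ∧ T2Space X ∧
        LindelofSpace {g : X → ℝ // Continuous g} ∧
        ∀ (Y : Type u) [TopologicalSpace Y] [CompactSpace Y] [T2Space Y],
          TopologicalSpace.IsTopologicalBasis {s : Set Y | IsClopen s} →
          (∃ f : Y → X, Continuous f ∧ Function.Surjective f) →
          ¬ LindelofSpace {g : Y → ℝ // Continuous g}) := by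
  refine ⟨?_, CFib.ch_final.{u}⟩
  obtain ⟨P, h1, h2, h3⟩ := Pool.Agent.Helper416.ForceCH.exists_forcing
  exact ⟨P, h1, h2, fun p => ⟨(h3 p).1, (h3 p).2.2⟩⟩

end Pool.Agent.Results.MP_d1327c_gt.CompactCounterexample
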